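import Pool.Agent.W223.RD.Stms

/-! Project RD: the main count. -/

set_option autoImplicit false

namespace Pool.Agent.W786.RD

open Finset Pool.Agent.W223.RD

noncomputable section

def D3s (q P : ℕ) : Set ℕ :=
  {p : ℕ | p.Prime ∧ P ≤ p ∧ p ≤ 2 * P ∧ ∃ j : ℕ, p ^ 8 ≤ q ^ j ∧ q ^ j ∣ p ^ (q - 1) - 1}
def D4s (m ℓ Z : ℕ) : Set ℕ := {p : ℕ | p.Prime ∧ p ≤ Z ∧ Rep m ℓ p}
def Tset (m i Z : ℕ) : Set ℕ :=
  {p : ℕ | p.Prime ∧ 2 ^ i ≤ p ∧ p < 2 ^ (i + 1) ∧ p ≤ Z ∧ (∀ q : ℕ, q.Prime → q ∣ m → q < p) ∧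
    ∃ ℓ : ℕ, ℓ.Prime ∧ Rep m ℓ p}

theorem D3s_fin (q P : ℕ) : (D3s q P).Finite :=
  Set.Finite.subset (Set.finite_Iic (2 * P)) fun _ hp => hp.2.2.1

theorem D4s_fin (m ℓ Z : ℕ) : (D4s m ℓ Z).Finite :=
  Set.Finite.subset (Set.finite_Iic Z) fun _ hp => hp.2.1

/-- The error term. -/
def EE (w N : ℕ) : ℕ := (8 * (w + 1)) * (8 * (w + 1) * (N + 1) + 1) ^ (w + 1)

theorem Tset_card (hD2 : StmtD2) (hD3 : StmtD3) (hD4 : StmtD4) (m i Z w : ℕ) (hm : 0 < m)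
    (hw : m.primeFactors.card ≤ w) (hi : 1 ≤ i) (hZ : 1 ≤ Z) :
    (Tset m i Z).Finite ∧
      (Tset m i Z).ncard ≤ w * Nat.sqrt (4 * 2 ^ i) + EE w (Nat.log 2 Z) := by
  set U1 : Set ℕ := ⋃ q ∈ m.primeFactors.filter (fun q => 2 < q ∧ q < 2 ^ (i + 1)),
    D3s q (2 ^ i) with hU1
  set U2 : Set ℕ := ⋃ ℓ ∈ Finset.Icc 2 (8 * (w + 1)), D4s m ℓ Z with hU2
  have hsub : Tset m i Z ⊆ U1 ∪ U2 := by
    rintro p ⟨hp, h1, h2, h3, h4, ℓ, hℓ, hrep⟩
    by_cases hl : 8 * (m.primeFactors.card + 1) < ℓ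
    · left
      obtain ⟨q, hq, hq2, j, hj1, hj2⟩ := hD2 m ℓ p hp hℓ hm h4 hrep hl
      have hqp : q < p := h4 q (Nat.prime_of_mem_primeFactors hq) (Nat.dvd_of_mem_primeFactors hq)
      rw [hU1]
      simp only [Set.mem_iUnion]
      refine ⟨q, Finset.mem_filter.2 ⟨hq, hq2, lt_trans hqp h2⟩, hp, h1, ?_, j, hj1, hj2⟩
      rw [pow_succ] at h2
      omega
    · right
      rw [hU2]
      simp only [Set.mem_iUnion]
      refine ⟨ℓ, Finset.mem_Icc.2 ⟨hℓ.two_le, ?_⟩, hp, h3, hrep⟩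
      have : 8 * (m.primeFactors.card + 1) ≤ 8 * (w + 1) := by omega
      omega
  have hf1 : U1.Finite := Set.Finite.biUnion (Finset.finite_toSet _) fun q _ => D3s_fin q _
  have hf2 : U2.Finite := Set.Finite.biUnion (Finset.finite_toSet _) fun q _ => D4s_fin m q _
  have hc1 : U1.ncard ≤ w * Nat.sqrt (4 * 2 ^ i) := by
    rw [hU1]
    refine (Finset.set_ncard_biUnion_le _ _).trans ?_
    refine (Finset.sum_le_card_nsmul _ _ (Nat.sqrt (4 * 2 ^ i)) fun q hq => ?_).trans ?_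
    · rw [Nat.le_sqrt]
      rw [Finset.mem_filter] at hq
      have h1 := hD3 q (2 ^ i) (Nat.prime_of_mem_primeFactors hq.1) hq.2.1
        (by calc 2 = 2 ^ 1 := rfl
              _ ≤ 2 ^ i := Nat.pow_le_pow_right (by norm_num) hi)
      change (D3s q (2 ^ i)).ncard ^ 2 ≤ 2 * q at h1
      have h2 := hq.2.2
      rw [pow_succ] at h2
      rw [← sq]
      omega
    · rw [smul_eq_mul]
      exact Nat.mul_le_mul_right _ ((Finset.card_filter_le _ _).trans hw)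
  have hc2 : U2.ncard ≤ EE w (Nat.log 2 Z) := by
    rw [hU2]
    refine (Finset.set_ncard_biUnion_le _ _).trans ?_
    refine (Finset.sum_le_card_nsmul _ _
      ((8 * (w + 1) * (Nat.log 2 Z + 1) + 1) ^ (w + 1)) fun ℓ hℓ => ?_).trans ?_
    · rw [Finset.mem_Icc] at hℓ
      refine (hD4 m ℓ Z hm hℓ.1 hZ).trans ?_
      calc (ℓ * (Nat.log 2 Z + 1) + 1) ^ (m.primeFactors.card + 1)
          ≤ (8 * (w + 1) * (Nat.log 2 Z + 1) + 1) ^ (m.primeFactors.card + 1) :=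
            Nat.pow_le_pow_left (Nat.add_le_add_right (Nat.mul_le_mul_right _ hℓ.2) 1) _
        _ ≤ (8 * (w + 1) * (Nat.log 2 Z + 1) + 1) ^ (w + 1) :=
            Nat.pow_le_pow_right (by omega) (by omega)
    · rw [smul_eq_mul, Nat.card_Icc]
      unfold EE
      exact Nat.mul_le_mul_right _ (by omega)
  refine ⟨(hf1.union hf2).subset hsub, ?_⟩
  refine (Set.ncard_le_ncard hsub (hf1.union hf2)).trans ?_
  exact (Set.ncard_union_le _ _).trans (Nat.add_le_add hc1 hc2)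

theorem asym : ∃ X₀ : ℝ, 3 ≤ X₀ ∧ ∀ X : ℝ, X₀ ≤ X →
    7 ≤ Real.log X ^ ((1 : ℝ) / 3) ∧
    105 * (Real.log X ^ ((1 : ℝ) / 3)) ^ 10 ≤
      Real.exp (22 / 45 * Real.log X ^ ((1 : ℝ) / 3)) := by
  have h1 : ∀ᶠ t : ℝ in Filter.atTop, 7 ≤ t := Filter.eventually_ge_atTop 7
  have h2 : ∀ᶠ t : ℝ in Filter.atTop, ‖t ^ 10‖ ≤ 1 / 105 * ‖Real.exp (22 / 45 * t)‖ :=
    (isLittleO_pow_exp_pos_mul_atTop 10 (by norm_num : (0 : ℝ) < 22 / 45)).bound (by norm_num)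
  have h3 := ((tendsto_rpow_atTop (by norm_num : (0 : ℝ) < 1 / 3)).comp
    Real.tendsto_log_atTop).eventually (h1.and h2)
  obtain ⟨X₁, hX₁⟩ := Filter.eventually_atTop.1 h3
  refine ⟨max 3 X₁, le_max_left _ _, fun X hX => ?_⟩
  obtain ⟨g1, g2⟩ := hX₁ X (le_trans (le_max_right _ _) hX)
  refine ⟨g1, ?_⟩
  simp only [Function.comp] at g1 g2
  set t := Real.log X ^ ((1 : ℝ) / 3)
  rw [Real.norm_of_nonneg (by positivity), Real.norm_of_nonneg (Real.exp_pos _).le] at g2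
  linarith

theorem tD7 (hD2 : Pool.Agent.W223.RD.StmtD2) (hD3 : Pool.Agent.W223.RD.StmtD3)
    (hD4 : Pool.Agent.W223.RD.StmtD4) : Pool.Agent.W223.RD.StmtD7 := by
  obtain ⟨X₀, hX₀, hasym⟩ := asym
  refine ⟨X₀, hX₀, fun X hX => ?_⟩
  obtain ⟨hT7, hT10⟩ := hasym X hX
  have hXpos : 0 < X := by linarith
  have hLpos : 0 < Real.log X := Real.log_pos (by linarith)
  set T := Real.log X ^ ((1 : ℝ) / 3) with hTdef
  have hLT : Real.log X = T ^ 3 := by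
    rw [hTdef, ← Real.rpow_natCast, ← Real.rpow_mul hLpos.le]
    norm_num
  set K := T / (10 * Real.log (Real.log X)) with hK
  set Z := ⌊X⌋₊ with hZ
  set N := Nat.log 2 Z with hN
  set w := ⌊K⌋₊ with hw
  have hlogL : 1 ≤ Real.log (Real.log X) := by
    rw [Real.le_log_iff_exp_le hLpos, hLT]
    have := Real.exp_one_lt_d9
    nlinarith [sq_nonneg T]
  have hK0 : 0 ≤ K := by positivity
  have hwK : (w : ℝ) ≤ K := Nat.floor_le hK0
  have hKT : K ≤ T := by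
    rw [hK, div_le_iff₀ (by positivity)]
    nlinarith
  have hZ1 : 1 ≤ Z := Nat.le_floor (by push_cast; linarith)
  have hZX : (Z : ℝ) ≤ X := Nat.floor_le hXpos.le
  have hN2 : (N : ℝ) ≤ 2 * T ^ 3 := by
    have h1 : ((2 ^ N : ℕ) : ℝ) ≤ X := by
      refine le_trans ?_ hZX
      exact_mod_cast Nat.pow_log_le_self 2 (by omega)
    have h2 := Real.log_le_log (by positivity) h1
    push_cast at h2
    rw [Real.log_pow, hLT] at h2
    have h3 := Real.log_two_gt_d9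
    have h4 : (0 : ℝ) ≤ N := Nat.cast_nonneg _
    nlinarith
  -- the cover
  set I := (Finset.range (N + 1)).filter (fun i => Real.exp T / 2 < (2 : ℝ) ^ i) with hI
  set MM : ℕ → Finset ℕ := fun i =>
    (Finset.Icc 1 ⌊X / 2 ^ i⌋₊).filter (fun m => m.primeFactors.card ≤ w) with hMM
  set U : Set ℕ := ⋃ i ∈ I, ⋃ m ∈ MM i, (fun p => p * m) '' Tset m i Z with hU
  have hsub : {R : ℕ | (R : ℝ) ≤ X ∧
      (R.primeFactors.card : ℝ) ≤ K ∧
      ∃ p m ℓ : ℕ, p.Prime ∧ ℓ.Prime ∧ 0 < m ∧ ¬ p ∣ m ∧ R = p * m ∧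
        (∀ q : ℕ, q.Prime → q ∣ m → q < p) ∧ Rep m ℓ p ∧
        Real.exp T ≤ (p : ℝ)} ⊆ U := by
    rintro R ⟨hRX, hRK, p, m, ℓ, hp, hℓ, hm, hpm, hR, hlt, hrep, hpY⟩
    rw [hU]
    simp only [Set.mem_iUnion]
    have hm1 : (1 : ℝ) ≤ m := by exact_mod_cast hm
    have hRe : (R : ℝ) = p * m := by rw [hR]; push_cast; ring
    have hp0 : (0 : ℝ) < p := by exact_mod_cast hp.pos
    have hpX : (p : ℝ) ≤ X := by nlinarith
    have hpZ : p ≤ Z := Nat.le_floor hpX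
    have hi1 : 2 ^ Nat.log 2 p ≤ p := Nat.pow_log_le_self 2 hp.ne_zero
    have hi2 : p < 2 ^ (Nat.log 2 p + 1) := Nat.lt_pow_succ_log_self (by norm_num) p
    have hi1' : (2 : ℝ) ^ Nat.log 2 p ≤ p := by exact_mod_cast hi1
    have hi2' : (p : ℝ) < 2 ^ (Nat.log 2 p + 1) := by exact_mod_cast hi2
    refine ⟨Nat.log 2 p, ?_, m, ?_, p, ⟨hp, hi1, hi2, hpZ, hlt, ℓ, hℓ, hrep⟩, hR.symm⟩
    · rw [hI, Finset.mem_filter, Finset.mem_range]
      refine ⟨Nat.lt_succ_of_le (Nat.log_mono_right hpZ), ?_⟩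
      rw [pow_succ] at hi2'
      linarith
    · rw [hMM, Finset.mem_filter, Finset.mem_Icc]
      refine ⟨⟨hm, Nat.le_floor ?_⟩, ?_⟩
      · rw [le_div_iff₀ (by positivity)]
        nlinarith
      · refine Nat.le_floor (le_trans ?_ hRK)
        exact_mod_cast Finset.card_le_card (Nat.primeFactors_mono ⟨p, by rw [hR]; ring⟩
          (by rw [hR]; exact mul_ne_zero hp.ne_zero hm.ne'))
  have hi1 : ∀ i ∈ I, 1 ≤ i := by
    intro i hi
    rw [hI, Finset.mem_filter] at hi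
    by_contra h0
    have : i = 0 := by omega
    rw [this] at hi
    have h2 := Real.add_one_le_exp T
    have h3 := hi.2
    norm_num at h3
    linarith
  have hfin1 : ∀ i ∈ I, ∀ m ∈ MM i, (Tset m i Z).Finite ∧
      (Tset m i Z).ncard ≤ w * Nat.sqrt (4 * 2 ^ i) + EE w N := by
    intro i hi m hm
    rw [hMM, Finset.mem_filter, Finset.mem_Icc] at hm
    exact Tset_card hD2 hD3 hD4 m i Z w hm.1.1 hm.2 (hi1 i hi) hZ1
  have hUfin : U.Finite := by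
    rw [hU]
    refine Set.Finite.biUnion (Finset.finite_toSet _) fun i hi => ?_
    refine Set.Finite.biUnion (Finset.finite_toSet _) fun m hm => ?_
    exact ((hfin1 i hi m hm).1).image _
  have hUcard : U.ncard ≤ ∑ i ∈ I, ⌊X / 2 ^ i⌋₊ * (w * Nat.sqrt (4 * 2 ^ i) + EE w N) := by
    rw [hU]
    refine (Finset.set_ncard_biUnion_le _ _).trans ?_
    refine Finset.sum_le_sum fun i hi => ?_
    refine (Finset.set_ncard_biUnion_le _ _).trans ?_
    refine (Finset.sum_le_card_nsmul _ _ (w * Nat.sqrt (4 * 2 ^ i) + EE w N)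
      fun m hm => ?_).trans ?_
    · exact (Set.ncard_image_le (hfin1 i hi m hm).1).trans (hfin1 i hi m hm).2
    · rw [smul_eq_mul]
      refine Nat.mul_le_mul_right _ ?_
      rw [hMM]
      refine (Finset.card_filter_le _ _).trans ?_
      rw [Nat.card_Icc]
      omega
  -- the size of the error term
  have hw0 : (0 : ℝ) ≤ w := Nat.cast_nonneg _
  have hN0 : (0 : ℝ) ≤ N := Nat.cast_nonneg _
  have hE : ((EE w N : ℕ) : ℝ) ≤ 16 * T ^ 7 * Real.exp (T / 5) := by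
    have hb : 8 * ((w : ℝ) + 1) * (N + 1) + 1 ≤ (T ^ 3) ^ 2 := by
      have a1 : (w : ℝ) + 1 ≤ 2 * T := by linarith
      have a2 : (N : ℝ) + 1 ≤ 3 * T ^ 3 := by
        have : 1 ≤ T ^ 3 := one_le_pow₀ (by linarith)
        linarith
      have a3 : ((w : ℝ) + 1) * (N + 1) ≤ 2 * T * (3 * T ^ 3) :=
        mul_le_mul a1 a2 (by linarith) (by linarith)
      have a4 : (49 : ℝ) ≤ T ^ 2 := by nlinarith
      have a5 : 49 * T ^ 4 ≤ T ^ 2 * T ^ 4 := mul_le_mul_of_nonneg_right a4 (by positivity)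
      have a6 : 1 ≤ T ^ 4 := one_le_pow₀ (by linarith)
      calc 8 * ((w : ℝ) + 1) * (N + 1) + 1 ≤ 8 * (2 * T * (3 * T ^ 3)) + T ^ 4 := by nlinarith
        _ = 49 * T ^ 4 := by ring
        _ ≤ T ^ 2 * T ^ 4 := a5
        _ = (T ^ 3) ^ 2 := by ring
    have hb1 : (0 : ℝ) < 8 * ((w : ℝ) + 1) * (N + 1) + 1 := by positivity
    have hpow : (8 * ((w : ℝ) + 1) * (N + 1) + 1) ^ (w + 1) ≤ Real.exp (T / 5) * (T ^ 3) ^ 2 := by
      have b1 : (8 * ((w : ℝ) + 1) * (N + 1) + 1) ^ (w + 1) ≤ ((T ^ 3) ^ 2) ^ (w + 1) :=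
        pow_le_pow_left₀ hb1.le hb _
      have hT3 : (0 : ℝ) < T ^ 3 := by positivity
      have b2 : ((T ^ 3) ^ 2) ^ (w + 1) =
          Real.exp (((w : ℝ) + 1) * (2 * Real.log (T ^ 3))) := by
        rw [← Real.exp_log (by positivity : (0 : ℝ) < ((T ^ 3) ^ 2) ^ (w + 1)), Real.log_pow,
          Real.log_pow]
        push_cast
        ring_nf
      have b3 : ((w : ℝ) + 1) * (2 * Real.log (T ^ 3)) ≤ T / 5 + 2 * Real.log (T ^ 3) := by
        rw [← hLT]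
        have : (w : ℝ) * (2 * Real.log (Real.log X)) ≤ K * (2 * Real.log (Real.log X)) :=
          mul_le_mul_of_nonneg_right hwK (by linarith)
        have e : K * (2 * Real.log (Real.log X)) = T / 5 := by
          rw [hK]
          have : Real.log (Real.log X) ≠ 0 := by linarith
          field_simp
          norm_num
        linarith
      have b4 : Real.exp (T / 5 + 2 * Real.log (T ^ 3)) = Real.exp (T / 5) * (T ^ 3) ^ 2 := by
        rw [Real.exp_add]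
        congr 1
        rw [show (2 : ℝ) * Real.log (T ^ 3) = Real.log ((T ^ 3) ^ 2) by
          rw [Real.log_pow]; norm_num, Real.exp_log (by positivity)]
      calc (8 * ((w : ℝ) + 1) * (N + 1) + 1) ^ (w + 1) ≤ ((T ^ 3) ^ 2) ^ (w + 1) := b1
        _ = Real.exp (((w : ℝ) + 1) * (2 * Real.log (T ^ 3))) := b2
        _ ≤ Real.exp (T / 5 + 2 * Real.log (T ^ 3)) := Real.exp_le_exp.2 b3
        _ = _ := b4
    unfold EE
    push_cast
    calc 8 * ((w : ℝ) + 1) * (8 * ((w : ℝ) + 1) * (N + 1) + 1) ^ (w + 1)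
        ≤ (16 * T) * (Real.exp (T / 5) * (T ^ 3) ^ 2) := by
          refine mul_le_mul (by linarith) hpow (by positivity) (by positivity)
      _ = 16 * T ^ 7 * Real.exp (T / 5) := by ring
  set e2 := Real.exp (-(T / 2)) with he2
  have he2pos : 0 < e2 := Real.exp_pos _
  have hterm : ∀ i ∈ I, ((⌊X / 2 ^ i⌋₊ * (w * Nat.sqrt (4 * 2 ^ i) + EE w N) : ℕ) : ℝ) ≤
      X * (35 * T ^ 7 * e2) := by
    intro i hi
    rw [hI, Finset.mem_filter] at hi
    have hPi : (0 : ℝ) < 2 ^ i := by positivity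
    have c1 : 1 / (2 : ℝ) ^ i ≤ 2 * Real.exp (-T) := by
      rw [div_le_iff₀ hPi]
      have : Real.exp (-T) * Real.exp T = 1 := by rw [← Real.exp_add]; simp
      nlinarith [hi.2, Real.exp_pos (-T)]
    have c2 : (Nat.sqrt (4 * 2 ^ i) : ℝ) / 2 ^ i ≤ 3 * e2 := by
      have d1 : ((Nat.sqrt (4 * 2 ^ i) : ℕ) : ℝ) ^ 2 ≤ 4 * 2 ^ i := by
        exact_mod_cast Nat.sqrt_le' (4 * 2 ^ i)
      have d2 : ((Nat.sqrt (4 * 2 ^ i) : ℝ) / 2 ^ i) ^ 2 ≤ (3 * e2) ^ 2 := by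
        have d3 : e2 ^ 2 = Real.exp (-T) := by
          rw [he2, ← Real.exp_nat_mul]; congr 1; push_cast; ring
        rw [div_pow, mul_pow, d3, div_le_iff₀ (by positivity)]
        have d4 : 1 ≤ 2 * Real.exp (-T) * 2 ^ i := by
          rwa [div_le_iff₀ hPi] at c1
        nlinarith [Real.exp_pos (-T)]
      exact (pow_le_pow_iff_left₀ (by positivity) (by positivity) (by norm_num)).1 d2
    have c3 : ((⌊X / 2 ^ i⌋₊ : ℕ) : ℝ) ≤ X / 2 ^ i := Nat.floor_le (by positivity)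
    have c4 : Real.exp (-T) * Real.exp (T / 5) ≤ e2 := by
      rw [he2, ← Real.exp_add]
      exact Real.exp_le_exp.2 (by linarith)
    push_cast
    calc ((⌊X / 2 ^ i⌋₊ : ℕ) : ℝ) * ((w : ℝ) * (Nat.sqrt (4 * 2 ^ i) : ℝ) + (EE w N : ℝ))
        ≤ X / 2 ^ i * ((w : ℝ) * (Nat.sqrt (4 * 2 ^ i) : ℝ) + (EE w N : ℝ)) :=
          mul_le_mul_of_nonneg_right c3 (by positivity)
      _ = X * ((w : ℝ) * ((Nat.sqrt (4 * 2 ^ i) : ℝ) / 2 ^ i) + (EE w N : ℝ) * (1 / 2 ^ i)) := by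
          field_simp
      _ ≤ X * (T * (3 * e2) + (16 * T ^ 7 * Real.exp (T / 5)) * (2 * Real.exp (-T))) := by
          refine mul_le_mul_of_nonneg_left ?_ hXpos.le
          refine add_le_add ?_ ?_
          · exact mul_le_mul (hwK.trans hKT) c2 (by positivity) (by linarith)
          · exact mul_le_mul hE c1 (by positivity) (by positivity)
      _ = X * (3 * T * e2 + 32 * T ^ 7 * (Real.exp (-T) * Real.exp (T / 5))) := by ring
      _ ≤ X * (3 * T ^ 7 * e2 + 32 * T ^ 7 * e2) := by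
          refine mul_le_mul_of_nonneg_left ?_ hXpos.le
          have g1 : T ≤ T ^ 7 := le_self_pow₀ (by linarith) (by norm_num)
          refine add_le_add ?_ ?_
          · exact mul_le_mul_of_nonneg_right (by linarith) he2pos.le
          · exact mul_le_mul_of_nonneg_left c4 (by positivity)
      _ = X * (35 * T ^ 7 * e2) := by ring
  have hcardI : (I.card : ℝ) ≤ 3 * T ^ 3 := by
    have : I.card ≤ N + 1 := by
      rw [hI]
      exact (Finset.card_filter_le _ _).trans (by rw [Finset.card_range])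
    have h2 : (I.card : ℝ) ≤ N + 1 := by exact_mod_cast this
    have : 1 ≤ T ^ 3 := one_le_pow₀ (by linarith)
    linarith
  have hfinal : 3 * T ^ 3 * (35 * T ^ 7 * e2) ≤ Real.exp (-(T / 90)) := by
    have h1 : 105 * T ^ 10 * e2 ≤ Real.exp (22 / 45 * T) * e2 :=
      mul_le_mul_of_nonneg_right hT10 he2pos.le
    have h2 : Real.exp (22 / 45 * T) * e2 = Real.exp (-(T / 90)) := by
      rw [he2, ← Real.exp_add]; congr 1; ring
    calc 3 * T ^ 3 * (35 * T ^ 7 * e2) = 105 * T ^ 10 * e2 := by ring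
      _ ≤ _ := h1.trans h2.le
  calc (({R : ℕ | (R : ℝ) ≤ X ∧
      (R.primeFactors.card : ℝ) ≤ K ∧
      ∃ p m ℓ : ℕ, p.Prime ∧ ℓ.Prime ∧ 0 < m ∧ ¬ p ∣ m ∧ R = p * m ∧
        (∀ q : ℕ, q.Prime → q ∣ m → q < p) ∧ Rep m ℓ p ∧
        Real.exp T ≤ (p : ℝ)}.ncard : ℕ) : ℝ) ≤ (U.ncard : ℝ) := by
        exact_mod_cast Set.ncard_le_ncard hsub hUfin
    _ ≤ ((∑ i ∈ I, ⌊X / 2 ^ i⌋₊ * (w * Nat.sqrt (4 * 2 ^ i) + EE w N) : ℕ) : ℝ) := by
        exact_mod_cast hUcard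
    _ = ∑ i ∈ I, ((⌊X / 2 ^ i⌋₊ * (w * Nat.sqrt (4 * 2 ^ i) + EE w N) : ℕ) : ℝ) := by
        rw [Nat.cast_sum]
    _ ≤ ∑ _i ∈ I, X * (35 * T ^ 7 * e2) := Finset.sum_le_sum hterm
    _ = (I.card : ℝ) * (X * (35 * T ^ 7 * e2)) := by rw [Finset.sum_const, nsmul_eq_mul]
    _ ≤ 3 * T ^ 3 * (X * (35 * T ^ 7 * e2)) := mul_le_mul_of_nonneg_right hcardI (by positivity)
    _ = X * (3 * T ^ 3 * (35 * T ^ 7 * e2)) := by ring
    _ ≤ X * Real.exp (-(T / 90)) := mul_le_mul_of_nonneg_left hfinal hXpos.le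

end

end Pool.Agent.W786.RD
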